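import Pool.Agent.V7H74.ImgCB

/-!
# Nonvanishing and the Cayley-Bacharach condition for the images of the product of a variety and a curve

Let `X` be a smooth projective variety over `ℂ` of dimension `m`, for example a product of varieties,
and `C` a smooth projective curve of any genus. Let `X × C ⇢ W` be a dominant rational map of finite
degree to a variety `W`. It need not be related to the product structure, and it need not be the
quotient by a group. Let `x 1, ..., x d` be the different points of `X` below a general point of `W`;
they are points of `X` with coordinates in the algebraic closure `Ω` of the function field of `W`, and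
`d ≤ deg(X × C ⇢ W)`.

**Theorem.** Suppose that `W` is not uniruled, for example that `K_W` is pseudo-effective, and that
`H⁰(W, K_W) = 0`. Then the points `x 1, ..., x d` satisfy the Cayley-Bacharach condition with respect to
`K_X`: every canonical form in `H⁰(X, K_X) ⊗ Ω` which vanishes at all of the points but one vanishes
at this point too.

In other words: if one of the points can be separated from the others by a canonical form with
coefficients in `Ω` then the following are equivalent: `p_g(W) = 0`; `κ(W) = -∞`; `K_W` is not
pseudo-effective; `W` is uniruled. So if the canonical bundle of a projective manifold `Y` which is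
birational to `W` is pseudo-effective then `h⁰(Y, K_Y) > 0`.

It is well known that the points of `X × C` over a general point of `W` satisfy the Cayley-Bacharach
condition with respect to the canonical forms of `X × C` if `p_g(W) = 0` (Lopez and Pirola). The
theorem says that even their projections to `X` satisfy it with respect to `K_X`, if `W` is not
uniruled.

The start results of this kind (`MP_813db1_ag.ProductsGenusZero`,
`MP_e06174_ag.ProductWithCurveGenusZero`, `MP_410da7_ag.OpenProductImages`) have assumptions which
imply that the Cayley-Bacharach condition fails: any `d` general points of `X` impose independent
conditions on the canonical forms, or `X` is a product of varieties and conditions of this kind hold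
for the factors one after the other. The same is true for the counting condition in
`MP_e06174_ag.SpreadFibresUniruledH74` if there is an exceptional curve. Here only the special points
`x 1, ..., x d` matter, and only one of them has to be separated from the others. For example, let
`X = C 1 × ... × C (n - 1)` be a product of hyperelliptic curves. General points are not separated by
the canonical forms of the `C i`, as the two points in a fibre of `C i → P¹` are not separated. But at
most `g(C i)` points of `C i` with different images in the projective line are separated. So the theorem
applies if for some `i` the images of the `d` points in `C i / ι = P¹` are different and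
`d ≤ g(C i)`. More generally, it is enough that the other points can be distributed to the factors such
that at most `g(C i) - 1` points are given to the factor `C i`, and their images in `C i / ι` are
different from the image of `x 1`.

There is no condition on the irregularity. The Cayley-Bacharach condition can hold: if
`W = (X × C) / G` is a bielliptic surface with a group `G` of order two, and `X` is the elliptic curve
with rational quotient `X / G`, then `d = 2`, the canonical form of `X` has no zeros, so the condition
holds, `p_g(W) = 0` and `κ(W) = 0`.

Proof. Let `f` be a canonical form of `X` and `φ` a differential on `C`. The trace on `W` of the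
product of their pullbacks is a canonical form, so it is zero if `p_g(W) = 0`. This is a relation
between the values of `f` at the points `x 1, ..., x d`, which holds also for the forms `f` with
coefficients in `Ω`. If `f` vanishes at all of the points but `x 1` then it follows that all `φ`
have trace zero on the points of the fibre over `x 1`, i.e. on the image `R` of `{x} × C` in `W × X` for
generic `x`. By base change all differentials of the geometric generic fibre have trace zero on `R`.
So `R` is rational, and `W` is uniruled. Uniruled varieties have no pseudo-effective canonical divisor.

The parts of the Lean proof on pull-backs, products, traces and the geometric generic fibre are from the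
starting files (`N145/SX` and the files which it imports; helpers 123, 221, 442, 160, 279, 603, 342,
75, 78 and 145).
-/

set_option autoImplicit false
set_option linter.overlappingInstances false
set_option maxHeartbeats 4000000
set_option synthInstance.maxHeartbeats 400000

open FF Module Pool.Agent Pool.Agent.W602.GT
open Pool.Agent.W619.PQ (IsUniruled)

namespace Pool.Agent.Results.MP_813db1_ag.CayleyBacharachH74

/-- The geometric genus of the varieties with function field `L`, of dimension `n`, is zero: the only
canonical form which is regular at all prime divisors is `0`. -/
def GenusZero (L : Type) [Field L] [Algebra ℂ L] (n : ℕ) : Prop :=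
  ∀ ω : (Fin n → Derivation ℂ L L) → L, IsPluri 1 ω →
    (∀ P : Place ℂ L, Divisorial n P → RegAt P ω) → ∀ D, ω D = 0

section

variable {K : Type} [Field K] [Algebra ℂ K] (E : IntermediateField ℂ K) (L : Type) [Field L]
  [Algebra ℂ L] [Algebra L K] [IsScalarTower ℂ L K]

/-- The point of `X` below the point `τ` of `X × C` over the generic point of `W`, with coordinates in
the algebraic closure of the function field `L` of `W`. -/
noncomputable def point (τ : K →ₐ[L] AlgebraicClosure L) : E →ₐ[ℂ] AlgebraicClosure L :=
  (τ.restrictScalars ℂ).comp E.val

/-- The canonical forms of `X` which are regular at all prime divisors, with coefficients in the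
algebraic closure `Ω` of `L`, as functions on the points of `X` with coordinates in `Ω`, with respect
to the frame `D` of the tangent bundle. -/
noncomputable def canonicalForms (m : ℕ) (D : Fin m → Derivation ℂ E E) :
    Submodule (AlgebraicClosure L) ((E →ₐ[ℂ] AlgebraicClosure L) → AlgebraicClosure L) :=
  Submodule.span (AlgebraicClosure L) {e | ∃ ω : (Fin m → Derivation ℂ E E) → E,
    IsPluri 1 ω ∧ (∀ P : Place ℂ E, Divisorial m P → RegAt P ω) ∧ e = fun σ => σ (ω D)}

/-- **The Cayley-Bacharach condition** for the points of `X` below the generic point of `W`, with
respect to the canonical forms of `X`: if a canonical form, with coefficients in the algebraic closure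
of the function field of `W`, vanishes at all of these points but one, then it vanishes at this point
too. -/
def CayleyBacharach (m : ℕ) : Prop :=
  ∀ D : Fin m → Derivation ℂ E E, LinearIndependent E D →
    ∀ ψ ∈ canonicalForms E L m D, ∀ τ0 : K →ₐ[L] AlgebraicClosure L,
      (∀ τ : K →ₐ[L] AlgebraicClosure L, point E L τ ≠ point E L τ0 → ψ (point E L τ) = 0) →
      ψ (point E L τ0) = 0

end

/-- **Nonvanishing and the Cayley-Bacharach condition.** Let `K` be the function field of `X × C`,
i.e. the compositum of the function fields `E` of the variety `X` of dimension `m` and `C` of the
curve, of transcendence degree `m + 1`. Let `L ⊆ K` be the function field of a variety `W` such that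
the extension is finite. Then the points of `X` below the generic point of `W` satisfy the
Cayley-Bacharach condition with respect to the canonical forms of `X`, or the following are equivalent:
the geometric genus of `W` is zero; `κ(W) = -∞`; `K_W` is not pseudo-effective; `W` is uniruled. In
particular, if `K_W` is pseudo-effective and `p_g(W) = 0` then the Cayley-Bacharach condition
holds. -/
theorem result (K : Type) [Field K] [Algebra ℂ K] [Algebra.EssFiniteType ℂ K] (m : ℕ)
    (E C : IntermediateField ℂ K) [Algebra.EssFiniteType ℂ E] [IsFF ℂ C] (hEC : E ⊔ C = ⊤)
    (hE : Algebra.trdeg ℂ E = m) (hK : Algebra.trdeg ℂ K = (m + 1 : ℕ)) (L : Type) [Field L]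
    [Algebra ℂ L] [Algebra L K] [IsScalarTower ℂ L K] [FiniteDimensional L K] :
    (¬ CayleyBacharach E L m →
      [GenusZero L (m + 1), ¬ KodGe ℂ L (m + 1) (fun _ => False) 0,
        ¬ Psef ℂ L (m + 1) (fun _ => False), IsUniruled ℂ L (m + 1)].TFAE) ∧
    (Psef ℂ L (m + 1) (fun _ => False) → GenusZero L (m + 1) → CayleyBacharach E L m) := by
  have key : ¬ CayleyBacharach E L m →
      [GenusZero L (m + 1), ¬ KodGe ℂ L (m + 1) (fun _ => False) 0,
        ¬ Psef ℂ L (m + 1) (fun _ => False), IsUniruled ℂ L (m + 1)].TFAE := by
    intro h
    unfold CayleyBacharach at h
    push Not at h
    obtain ⟨D, hD, ψ, hψ, τ0, h1, h2⟩ := h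
    refine V7H74.HL.cb_tfae hEC hE hK D τ0 ψ hψ h2 fun τ hτ => h1 τ ?_
    obtain ⟨z, hz, hne⟩ := hτ
    intro h3
    exact hne (congrArg (fun f : E →ₐ[ℂ] AlgebraicClosure L => f ⟨z, hz⟩) h3)
  refine ⟨key, fun h1 h2 => ?_⟩
  by_contra h3
  have h4 : GenusZero L (m + 1) ↔ ¬ Psef ℂ L (m + 1) (fun _ => False) := (key h3).out 0 2
  exact h4.1 h2 h1

end Pool.Agent.Results.MP_813db1_ag.CayleyBacharachH74
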