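import Pool.Agent.V7H74.MgS

/-!
# Nonvanishing for the images of complete intersections: the counting condition

`V` is one of the following varieties of dimension `n ≥ 1`, with a map `V ⇢ E`, in blocks.

(a) `V` is a component of the set of common zeros in a torus `(ℂ^*) ^ (n + q)` of a system `f` of
Laurent polynomials which is nondegenerate in the sense of Khovanskii, with arbitrary Newton
polytopes. Some monomials `t_j = x ^ (w_j)` are given, divided into blocks, where `β j` is the block
of `t_j`, and `E` is the image of `V` under these monomials, where `ℂ(V) = ℂ(t)(y)` for a monomial
`y = x ^ v`. The `M_l` are numbers such that for some `u` the `u + j v + ∑_i a_i w_i` are in the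
Fine interior of the Newton polytopes, for all `j < c(all)` and all `a_i ≥ 0` with sum at most `M_l`
over the block `l`, for each `l` (`HasBox`; the numbers `c` are defined below). For example, let `V`
be a nondegenerate hypersurface of multidegree `(d_1, ..., d_p, d_0)` in a product of projective
spaces of dimensions `n_1, ..., n_p` and `1`, where the `t_j` are the affine coordinates of the
first `p` factors and `y` is the coordinate of the last one. Then `E` is the product of the first
`p` factors, and `M_l = d_l - n_l - 1` is possible, if these numbers are not negative and
`c(all) < d_0`.

(b) `V` is a smooth complete intersection, of any codimension `q`, in the product of the projective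
lines with the coordinates `x_i`, `i = 1, ..., n + q`, with canonical divisor `O(m_i)`, where all
`m_i ≥ 0`; `E` is the image of `V` under the projection which forgets one coordinate `x_{i0}`, and
each block consists of one coordinate `x_i`, `i ≠ i0`, with `M_i = m_i`.

Let `V ⇢ X` be any dominant rational map of degree `r`; nothing is assumed about the map (it need
not be a quotient by a group). For a set `S` of functions `t_j` (or `x_i`, `i ≠ i0`) let `c(S)` be
the number of the points of the general fibre of `V ⇢ X` where the functions in `S` have the same
values as in a given point of the fibre; so `c(∅) = r`.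

The blocks spread the fibres, for the number `c` (`1` or `2`), if for some order of the blocks, with
ties, given by numbers `b_l`, for all `s` and all nonempty sets `A` of blocks with `b = s`,
`c c(the blocks with b ≤ s which are not in A) ≤ c(the blocks with b ≤ s) (1 + ∑_{l ∈ A} M_l)`
(`Spread`, `SpreadC`). One of the following conditions holds (`SpreadImage`). First case: let
`V = V 0 ⇢ V 1 ⇢ ... ⇢ V k` be a tower, where each `V j`, `j < k`, is as in (a) (`SpreadTower`) or as in
(b) (`SpreadLines`), `V (j + 1)` is its image `E`, `V k` is uniruled, and if `V ⇢ X` factors through
`V j` and not through `V (j + 1)` then the blocks of `V j` spread the fibres of `V j ⇢ X`. Second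
case: let `V` be as in (a), let `E` be uniruled, and for each block let all `t_j` in the block be
constant on the general fibres of `V ⇢ X`, or let the `t_j` in the block take different values at any
two points of the general fibre with different images in `E`; let `B` be the set of the blocks of
the second kind, and `c ≤ M_l + 1` for all `l`, and `c r ≤ c(all) (1 + ∑_{l ∈ B} M_l)` if `B` is not
empty.

(1) If this holds for `c = 1` and the canonical divisor of (a resolution of) `X` is pseudo-effective,
then it is even effective, `H^0 (X, K_X) ≠ 0`. The following are equivalent: the geometric genus of
`X` is zero; all plurigenera of `X` are zero; the canonical divisor is not pseudo-effective; `X` is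
uniruled. So nonvanishing holds for all compact manifolds which are bimeromorphic to such an `X`.

(2) If this holds for `c = 2` then these conditions are also equivalent to: the canonical divisor of
`X` is not big; the canonical map of `X` is not generically finite onto its image.

(3) If it holds for `c = 1` with unirational varieties instead of the uniruled ones, then these are
equivalent: the geometric genus of `X` is zero; all plurigenera of `X` are zero; the canonical
divisor is not pseudo-effective; `X` is uniruled; `X` is unirational. The same is true if `V` is a
smooth hypersurface of multidegree `(m_i + 2)` in the product of `n + 1` projective lines, each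
`x_i`, `i ≠ i0`, is constant on the general fibres of `V ⇢ X` or takes different values at all the
points of the general fibre (this holds for all maps of prime degree), and
`r ≤ 1 + ∑_{i ∈ B} m_i`, if the set `B` of the coordinates of the second kind is not empty. For
example, if `m_i = m ≥ 0` for all `i`, the degree `r` is prime, and no coordinate is constant on the
fibres, then `r ≤ 1 + n m` suffices.

The earlier theorem in this repository for all dominated varieties (`ImagesOfTowers`) needs
`c r ≤ c(all) (M + 1)` for a single block: in the example for (a), `M` is the minimum of the
`d_l - n_l - 1`, and in the second case only the sum of these numbers has to be large.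
(`ImagesProductOfLines` treats smooth hypersurfaces in products of projective lines without a
condition on the fibres, if `r` is at most `1 + 2 min m_i`.)

Proof: the forms `A y ^ j x ^ u Res`, where `Res` is the residue form on `V` and `A` is a monomial in
the `t_j` of degree at most `M_l` in the block `l`, have traces on `X`. If all these traces are zero,
this is a relation for the general fibre; if they do not separate the general points, there is a
relation for two general fibres. It is restricted to the parts of the fibres with the same values in
more and more blocks, by a theorem of Hall type for products of polynomials; the order `b` gives an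
order of the elimination. At the end there is a relation for the part with the same image in `E`,
and this contradicts the choice of `j`. Some steps follow the proofs in `Pool/Agent/R882`.

`K` and `L` are the function fields of `V` and `X`. `GenusZero L n`: there is no nonzero canonical
form, regular on all smooth projective varieties with function field `L`. `KodGe ℂ L n ∅ 0`: some
plurigenus is not zero. `Psef ℂ L n ∅`: the canonical divisor is pseudo-effective
(`Pool/Agent/W602/GT`). `CanGe L n n`: there are `n + 1` canonical forms whose ratios have
transcendence degree `n` (`Pool/Agent/N145/SX/Tri.lean`). `IsUniruled`, `IsUnirational`: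
`Pool/Agent/W619`. `Nondegenerate`,
`IsTorusPoint`, `InFine`: `Pool/Agent/R882/HT.lean`; `IsSmooth`, `IsGenericPoint`:
`Pool/Agent/R882/HL.lean`. `HasBox`, `Spread`, `SpreadTower`, `SpreadLines`, `SharpToricImage`,
`SharpLinesImage`, `SpreadImage`: `Pool/Agent/V7H74/Mg.lean`, `MgT.lean`, `MgL.lean`, `MgR.lean`,
`MgS.lean`.
-/

set_option autoImplicit false
set_option linter.overlappingInstances false

open FF Module Pool.Agent.W602.GT
open Pool.Agent.W619.PQ (IsUniruled)
open Pool.Agent.W619.TW (IsUnirational)
open Pool.Agent.N145.SX (CanGe)
open Pool.Agent.R882.HT (GenusZero)
open Pool.Agent.V7H74.MG

namespace Pool.Agent.Results.MP_813db1_ag.SpreadImagesNonvanishingH74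

/-- **Nonvanishing for the images of complete intersections: the counting condition.** -/
theorem result {n : ℕ} (hn : 1 ≤ n) {K : Type} [Field K] [Algebra ℂ K]
    [Algebra.EssFiniteType ℂ K] (hK : Algebra.trdeg ℂ K = (n : ℕ))
    (L : Type) [Field L] [Algebra ℂ L] [Algebra L K] [IsScalarTower ℂ L K]
    [FiniteDimensional L K] :
    -- (1) uniruled bases
    (SpreadImage n 1 (fun E _ _ => IsUniruled ℂ E n) K L →
      [GenusZero L n, ¬ KodGe ℂ L n (fun _ => False) 0, ¬ Psef ℂ L n (fun _ => False),
        IsUniruled ℂ L n].TFAE) ∧
    -- (2) the stronger condition
    (SpreadImage n 2 (fun E _ _ => IsUniruled ℂ E n) K L →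
      [GenusZero L n, ¬ KodGe ℂ L n (fun _ => False) 0, ¬ Psef ℂ L n (fun _ => False),
        ¬ GeneralType ℂ L n, ¬ CanGe L n n, IsUniruled ℂ L n].TFAE) ∧
    -- (3) unirational bases; hypersurfaces in products of lines
    ((SpreadImage n 1 (fun E _ _ => IsUnirational ℂ E n) K L ∨
      ∃ (F : MvPolynomial (Fin (n + 1)) ℂ) (m : Fin (n + 1) → ℕ) (x : Fin (n + 1) → K)
        (i0 : Fin (n + 1)) (B : Finset (Fin (n + 1))), SharpLinesImage L n 1 F m x i0 B) →
      [GenusZero L n, ¬ KodGe ℂ L n (fun _ => False) 0, ¬ Psef ℂ L n (fun _ => False),
        IsUniruled ℂ L n, IsUnirational ℂ L n].TFAE) := by
  have hess : Algebra.EssFiniteType ℂ L := Pool.Agent.TH466.QG.ess_below (K := K)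
  have hL : Algebra.trdeg ℂ L = (n : ℕ) := Pool.Agent.Y184.NT.trdeg_below (K := K) hK
  refine ⟨fun h => (Pool.Agent.R882.HTM.tfae_of (L := L) hL).1 fun hg => ?_,
    fun h => tfae_two hL ?_, fun h => tfae_uni hn hL fun hg => ?_⟩
  · exact (dich_image (Pool.Agent.R882.HT.descends_uniruled n) hK L).1 h hg
  · exact (dich_image (Pool.Agent.R882.HT.descends_uniruled n) hK L).2 h
  · rcases h with h | ⟨F, m, x, i0, B, hV⟩
    · exact (dich_image (Pool.Agent.R882.HT.descends_unirational n) hK L).1 h hg
    · exact (hyp_sharp (L := L) hV.cover hV.coordinates hV.positive hV.degree
        (Or.inl ⟨rfl, hg⟩)).2

end Pool.Agent.Results.MP_813db1_ag.SpreadImagesNonvanishingH74
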